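import Pool.Agent.Q117.ML.Rate

/-!
# The Ichino–Ikeda formula as a limit of absolutely convergent sums over places

`F` is a number field. For each finite place `v` (norm `q`) let `α v i` (`i < n₁`), `β v i` (`i < n₂`),
`δ v i` (`i < n₃`) be the reciprocal roots of the local factors of `L(s, τ × σ)`, `L(s, τ, Ad)`, `L(s, σ, Ad)`
(padded by zeros), of absolute value `≤ 1`, as for tempered `τ` and `σ`. For `γ > π/2` put

`S(T) = ∑_v ∑_{k ≥ 1} (1/k) ((∑_i α^k) q^{-k/2} - (∑_i β^k) q^{-k} - (∑_i δ^k) q^{-k})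
          · e^{iγ k log q/T} / Γ(1 + k log q/T)`.

Then `e^{S(T)} = L(1/2, τ × σ) / (L(1, τ, Ad) L(1, σ, Ad)) + O(1/T)` (finite parts); the central value vanishes if and
only if `Re S(T) → -∞` along one sequence, and the formula of Ichino and Ikeda, `𝒫 = c · 𝓛` with `c` the product of
`2^{-β} Δ`, the local periods and the factors at infinity, holds if and only if `c e^{S(T)} → 𝒫` along one sequence
of numbers `T → ∞`; the error is then `O(1/T)`.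
-/

set_option autoImplicit false

namespace Pool.Agent.Results.MP_f4c338_nt.PeriodLimit

open Filter Topology Asymptotics NumberField IsDedekindDomain Pool.Agent.Q45.ML Pool.Agent.Q117.ML

variable {F : Type} [Field F] [NumberField F]

/-- the norm of a finite place -/
noncomputable def nm (v : HeightOneSpectrum (𝓞 F)) : ℕ := Ideal.absNorm v.asIdeal

/-- the weight `e^{iγ k log q/T} / Γ(1 + k log q/T)` -/
noncomputable def wt (γ T : ℝ) (v : HeightOneSpectrum (𝓞 F)) (k : ℕ) : ℂ :=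
  Complex.exp ((γ * (k * Real.log (nm v) / T) : ℝ) * Complex.I) /
    (Real.Gamma (1 + k * Real.log (nm v) / T) : ℂ)

/-- the term at `(v, k)`, `k = z.2 + 1` -/
noncomputable def term {n₁ n₂ n₃ : ℕ} (α : HeightOneSpectrum (𝓞 F) → Fin n₁ → ℂ)
    (β : HeightOneSpectrum (𝓞 F) → Fin n₂ → ℂ) (δ : HeightOneSpectrum (𝓞 F) → Fin n₃ → ℂ) (γ T : ℝ)
    (z : HeightOneSpectrum (𝓞 F) × ℕ) : ℂ :=
  ((∑ i, α z.1 i ^ (z.2 + 1)) / (nm z.1 : ℂ) ^ (((z.2 + 1 : ℕ) : ℂ) / 2) -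
    (∑ i, β z.1 i ^ (z.2 + 1)) / (nm z.1 : ℂ) ^ (z.2 + 1) -
    (∑ i, δ z.1 i ^ (z.2 + 1)) / (nm z.1 : ℂ) ^ (z.2 + 1)) / ((z.2 + 1 : ℕ) : ℂ) *
    wt γ T z.1 (z.2 + 1)

/-- the smoothed sum -/
noncomputable def S {n₁ n₂ n₃ : ℕ} (α : HeightOneSpectrum (𝓞 F) → Fin n₁ → ℂ)
    (β : HeightOneSpectrum (𝓞 F) → Fin n₂ → ℂ) (δ : HeightOneSpectrum (𝓞 F) → Fin n₃ → ℂ) (γ T : ℝ) :
    ℂ := ∑' z, term α β δ γ T z

/-- `L` is analytic at the real points `≥ s₀` and is the Euler product with parameters `α` for `Re s > 1` -/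
def Cont {n : ℕ} (α : HeightOneSpectrum (𝓞 F) → Fin n → ℂ) (L : ℂ → ℂ) (s₀ : ℝ) : Prop :=
  (∀ x : ℝ, s₀ ≤ x → AnalyticAt ℂ L (x : ℂ)) ∧
  ∀ s : ℂ, 1 < s.re → HasProd (fun v => ∏ i, (1 - α v i * (nm v : ℂ) ^ (-s))⁻¹) (L s)

theorem eul {n : ℕ} {α : HeightOneSpectrum (𝓞 F) → Fin n → ℂ} (hα : ∀ v i, ‖α v i‖ ≤ 1) :
    Eul n (nrm (K := F)) α (1 / 2) 1 := by
  refine ⟨zero_le_one, two_le_nrm, fun _ hσ => nrm_summable hσ, fun v i => (hα v i).trans ?_⟩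
  exact Real.one_le_rpow (by linarith [two_le_nrm v]) (by norm_num)

theorem value {n : ℕ} {α : HeightOneSpectrum (𝓞 F) → Fin n → ℂ} (hα : ∀ v i, ‖α v i‖ ≤ 1) {L : ℂ → ℂ}
    {s₀ : ℝ} (hs₀ : s₀ < 3 / 2) (h : Cont α L s₀) {γ : ℝ} (hγ : Real.pi / 2 < γ) :
    Rate (fun T => Complex.exp (smooth nrm α s₀ γ T)) (L s₀) := by
  refine (eul hα).value (by linarith) (fun x hx _ => (h.1 x hx).meromorphicAt) (fun s hs => ?_)
    (h.1 s₀ le_rfl) hγ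
  have h1 := h.2 s (by linarith)
  simpa [nm, nrm] using h1

theorem term_eq {n₁ n₂ n₃ : ℕ} (α : HeightOneSpectrum (𝓞 F) → Fin n₁ → ℂ)
    (β : HeightOneSpectrum (𝓞 F) → Fin n₂ → ℂ) (δ : HeightOneSpectrum (𝓞 F) → Fin n₃ → ℂ) (γ T : ℝ)
    (z : HeightOneSpectrum (𝓞 F) × ℕ) :
    term α β δ γ T z = sterm nrm α (1 / 2) γ T z - sterm nrm β 1 γ T z - sterm nrm δ 1 γ T z := by
  have e1 : ((nrm z.1 : ℝ) : ℂ) = (nm z.1 : ℂ) := by simp [nrm, nm]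
  have e2 : ((nm z.1 : ℂ)) ^ (((((z.2 : ℝ) + 1) * (1 / 2 : ℝ) : ℝ)) : ℂ) =
      (nm z.1 : ℂ) ^ (((z.2 + 1 : ℕ) : ℂ) / 2) := by
    congr 1
    push_cast
    ring
  have e3 : ((nm z.1 : ℂ)) ^ (((((z.2 : ℝ) + 1) * (1 : ℝ) : ℝ)) : ℂ) = (nm z.1 : ℂ) ^ (z.2 + 1) := by
    rw [mul_one, ← Complex.cpow_natCast]
    congr 1
    push_cast
    ring
  have e4 : (Complex.exp ((γ * (((z.2 : ℝ) + 1) * Real.log (nrm z.1) / T) : ℝ) * Complex.I) /
      (Real.Gamma (1 + ((z.2 : ℝ) + 1) * Real.log (nrm z.1) / T) : ℂ)) = wt γ T z.1 (z.2 + 1) := by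
    unfold wt nrm nm
    push_cast
    rfl
  unfold term sterm
  rw [e4, e1, e2, e3]
  set w := wt γ T z.1 (z.2 + 1)
  have h1 : ((z.2 : ℂ) + 1) ≠ 0 := by exact_mod_cast z.2.succ_ne_zero
  push_cast
  simp only [div_eq_mul_inv, mul_inv]
  ring

theorem result {n₁ n₂ n₃ : ℕ} (α : HeightOneSpectrum (𝓞 F) → Fin n₁ → ℂ)
    (β : HeightOneSpectrum (𝓞 F) → Fin n₂ → ℂ) (δ : HeightOneSpectrum (𝓞 F) → Fin n₃ → ℂ)
    (hα : ∀ v i, ‖α v i‖ ≤ 1) (hβ : ∀ v i, ‖β v i‖ ≤ 1) (hδ : ∀ v i, ‖δ v i‖ ≤ 1)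
    (L Lτ Lσ : ℂ → ℂ) (hL : Cont α L (1 / 2)) (hLτ : Cont β Lτ 1) (hLσ : Cont δ Lσ 1)
    (hτ : Lτ 1 ≠ 0) (hσ : Lσ 1 ≠ 0) {γ : ℝ} (hγ : Real.pi / 2 < γ) :
    (∀ T : ℝ, 0 < T → Summable fun z => ‖term α β δ γ T z‖) ∧
    (fun T : ℝ => Complex.exp (S α β δ γ T) - L (1 / 2) / (Lτ 1 * Lσ 1)) =O[atTop]
      (fun T : ℝ => 1 / T) ∧
    List.TFAE [L (1 / 2) = 0,
      Tendsto (fun T : ℝ => (S α β δ γ T).re) atTop atBot,
      ∃ t : ℕ → ℝ, Tendsto t atTop atTop ∧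
        Tendsto (fun i => (S α β δ γ (t i)).re) atTop atBot] ∧
    ∀ c P : ℂ, List.TFAE [c * (L (1 / 2) / (Lτ 1 * Lσ 1)) = P,
      (fun T : ℝ => c * Complex.exp (S α β δ γ T) - P) =O[atTop] (fun T : ℝ => 1 / T),
      ∃ t : ℕ → ℝ, Tendsto t atTop atTop ∧
        Tendsto (fun i => c * Complex.exp (S α β δ γ (t i))) atTop (𝓝 P)] := by
  have h1 : ∀ T : ℝ, 0 < T → Summable fun z => ‖sterm (nrm (K := F)) α (1 / 2) γ T z‖ :=
    fun T hT => (eul hα).sterm_summable _ _ hT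
  have h2 : ∀ T : ℝ, 0 < T → Summable fun z => ‖sterm (nrm (K := F)) β 1 γ T z‖ :=
    fun T hT => (eul hβ).sterm_summable _ _ hT
  have h3 : ∀ T : ℝ, 0 < T → Summable fun z => ‖sterm (nrm (K := F)) δ 1 γ T z‖ :=
    fun T hT => (eul hδ).sterm_summable _ _ hT
  have hsum : ∀ T : ℝ, 0 < T → Summable fun z => ‖term α β δ γ T z‖ := by
    intro T hT
    refine Summable.of_nonneg_of_le (fun _ => norm_nonneg _) (fun z => ?_)
      (((h1 T hT).add (h2 T hT)).add (h3 T hT))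
    rw [term_eq]
    exact (norm_sub_le _ _).trans (add_le_add (norm_sub_le _ _) le_rfl)
  have hS : ∀ T : ℝ, 0 < T → S α β δ γ T = smooth nrm α (1 / 2) γ T - smooth nrm β 1 γ T -
      smooth nrm δ 1 γ T := by
    intro T hT
    unfold S smooth
    simp only [term_eq]
    rw [Summable.tsum_sub ((h1 T hT).of_norm.sub (h2 T hT).of_norm) (h3 T hT).of_norm,
      Summable.tsum_sub (h1 T hT).of_norm (h2 T hT).of_norm]
  have r1 := value hα (by norm_num) hL hγ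
  have r2 := value hβ (by norm_num) hLτ hγ
  have r3 := value hδ (by norm_num) hLσ hγ
  rw [Complex.ofReal_one] at r2 r3
  have e0 : ((1 / 2 : ℝ) : ℂ) = 1 / 2 := by push_cast; rfl
  rw [e0] at r1
  have r4 := (r1.mul (r2.inv hτ)).mul (r3.inv hσ)
  have hmain : Rate (fun T => Complex.exp (S α β δ γ T)) (L (1 / 2) / (Lτ 1 * Lσ 1)) := by
    have e : L (1 / 2) * (Lτ 1)⁻¹ * (Lσ 1)⁻¹ = L (1 / 2) / (Lτ 1 * Lσ 1) := by
      field_simp
    rw [e] at r4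
    refine IsBigO.congr' r4 ?_ EventuallyEq.rfl
    filter_upwards [eventually_gt_atTop 0] with T hT
    rw [hS T hT, sub_sub, Complex.exp_sub, Complex.exp_add]
    field_simp
  refine ⟨hsum, hmain, ?_, fun c P => ((Rate.const c).mul hmain).tfae P⟩
  have h4 := hmain.exp_zero
  have e : (L (1 / 2) / (Lτ 1 * Lσ 1) = 0) ↔ L (1 / 2) = 0 := by
    rw [div_eq_zero_iff]
    exact or_iff_left (mul_ne_zero hτ hσ)
  rw [e] at h4
  exact h4

end Pool.Agent.Results.MP_f4c338_nt.PeriodLimit
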