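import Mathlib
import Pool.Agent.Q18.P.Tensor
import Pool.Agent.Q190.RV.StarReal

/-!
# The Ichino-Ikeda formula and ratios of Euler products at the centre

`τ`, `σ` are tempered cuspidal automorphic representations of `SO(V_n)`, `SO(V_{n+1})` over a number field `K` as in the
problem, `S` a finite set of finite places containing the bad ones, `a_{v,i}`, `b_{v,j}`, `v ∉ S`, the eigenvalues of the
Satake parameters in the standard representations (absolute value `1`, real power sums), and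
`F(s) = ∏_{v ∉ S} ∏_{i,j} (1 - a_{v,i} b_{v,j} q_v^{-s})⁻¹` the partial `L`-function, holomorphic and of polynomial growth
in a half plane `Re s > 1/2 - η` (known, unless there are poles at `Re s = 1`). Let `ι` index the pairs `(φ, f)` of
factorisable vectors, `Per_ι = 𝒫(φ, f) ≥ 0` the global periods, and `c_ι ≥ 0` the number for which the formula says
`Per_ι = c_ι F(1/2)` (it is `2^{-β} Δ ∏_v 𝒫_v(φ_v, f_v)` divided by `L(1, τ, Ad) L(1, σ, Ad)` and multiplied by the Euler
factors of `L(1/2, τ × σ)` at `S` and infinity). Let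

`P*(y) = exp (- ∑_{v ∉ S, q_v^k ≤ y} (∑_i a_{v,i}^k)(∑_j b_{v,j}^k) / (k q_v^{k/2}))`,

the product over the prime powers up to `y`. No power of `log y` and no hypothesis on the zeros of `F` is used:

1. If for all `l` in a set of positive (outer) measure in `(1, ∞)` the ratio `P*(y^l) / P*(y)` converges as `y → ∞` (to
   anything), then `F` has no zeros with `Re s > 1/2`, `F(1/2)` is real and not negative, `1 / P*(y)` converges to
   `F(1/2)`, and so the formula of Ichino and Ikeda holds for the pair `ι` if and only if `c_ι / P*(y)` converges to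
   `Per_ι`.
2. For one pair of vectors with `c_ι > 0` and `Per_ι ≠ 0`: `c_ι / P*(y)` converges to the period `Per_ι` if and only if
   the formula holds for this pair and `P*` is slowly varying from above at many exponents: for all `l` in a set of
   positive outer measure and all `ε > 0`, `P*(y^l) ≤ (1 + ε) P*(y)` for all large `y`.
3. One exponent: if `P*(y^l) ≤ Q P*(y)` for ONE `l > 1`, with `Q < l` (or `Q < l²` if the order of `F` at `1/2` is even,
   which is the case of root number `1`), then the formula for a pair with `c_ι > 0` implies that its period is not `0`;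
   if also `r P*(y) ≤ P*(y^l)` for some `r > 1` (and any `Q`), the formula implies that all periods are `0`.
-/

set_option autoImplicit false

namespace Pool.Agent.Results.MP_f4c338_nt.PeriodRatios

open Filter Topology Set Complex NumberField IsDedekindDomain MeasureTheory

variable {K : Type} [Field K] [NumberField K] {p q : ℕ}

/-- `q_v` -/
noncomputable def norm (v : HeightOneSpectrum (𝓞 K)) : ℕ := Ideal.absNorm v.asIdeal

/-- absolute value `1` and real power sums -/
def SelfDual (S : Finset (HeightOneSpectrum (𝓞 K))) (a : HeightOneSpectrum (𝓞 K) → Fin p → ℂ) : Prop :=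
  ∀ v, v ∉ S → (∀ i, ‖a v i‖ = 1) ∧ ∀ k : ℕ, (∑ i, a v i ^ k).im = 0

/-- `F` is holomorphic, of polynomial growth in a half plane `Re s > 1/2 - η`, and for `Re s > 1` it is the Euler
product. -/
structure IsL (S : Finset (HeightOneSpectrum (𝓞 K))) (a : HeightOneSpectrum (𝓞 K) → Fin p → ℂ)
    (b : HeightOneSpectrum (𝓞 K) → Fin q → ℂ) (F : ℂ → ℂ) : Prop where
  holo : ∃ (η C : ℝ) (k : ℕ), 0 < η ∧ ∀ s : ℂ, 1 / 2 - η < s.re → DifferentiableAt ℂ F s ∧ ‖F s‖ ≤ C * (1 + ‖s‖) ^ k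
  euler : ∀ s : ℂ, 1 < s.re → HasProd (fun v : {v : HeightOneSpectrum (𝓞 K) // v ∉ S} =>
    (∏ i, ∏ j, (1 - a v.1 i * b v.1 j * (norm v.1 : ℂ) ^ (-s)))⁻¹) (F s)

/-- `P*(y) = exp (- ∑_{v ∉ S, q_v^k ≤ y} (∑_i a_{v,i}^k)(∑_j b_{v,j}^k) / (k q_v^{k/2}))`, the (finite) sum over the pairs
`(v, k)`, `v` a place outside of `S`, `k = x.2 + 1 ≥ 1`, with `q_v^k ≤ y` (the numerators are real for self-dual
parameters). -/
noncomputable def productStar (S : Finset (HeightOneSpectrum (𝓞 K))) (a : HeightOneSpectrum (𝓞 K) → Fin p → ℂ)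
    (b : HeightOneSpectrum (𝓞 K) → Fin q → ℂ) (y : ℝ) : ℝ :=
  Real.exp (-∑ᶠ (x : {v : HeightOneSpectrum (𝓞 K) // v ∉ S} × ℕ) (_ : (norm x.1.1 : ℝ) ^ (x.2 + 1) ≤ y),
    ((∑ i, a x.1.1 i ^ (x.2 + 1)) * ∑ j, b x.1.1 j ^ (x.2 + 1)).re /
      (((x.2 : ℝ) + 1) * ((norm x.1.1 : ℝ) ^ (1 / 2 : ℝ)) ^ (x.2 + 1)))

/-- There is a set `Λ ⊆ (1, ∞)` of positive (outer) Lebesgue measure such that for every `l ∈ Λ` the ratio
`P(y^l) / P(y)` converges as `y → ∞`. -/
def Conv (P : ℝ → ℝ) : Prop :=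
  ∃ Λ : Set ℝ, Λ ⊆ Ioi 1 ∧ volume Λ ≠ 0 ∧ ∀ l ∈ Λ, ∃ r : ℝ, Tendsto (fun y : ℝ => P (y ^ l) / P y) atTop (𝓝 r)

/-- There is a set `Λ ⊆ (1, ∞)` of positive (outer) Lebesgue measure such that for every `l ∈ Λ` and `ε > 0`,
`P(y^l) ≤ (1 + ε) P(y)` for all large `y`. -/
def Slow (P : ℝ → ℝ) : Prop :=
  ∃ Λ : Set ℝ, Λ ⊆ Ioi 1 ∧ volume Λ ≠ 0 ∧ ∀ l ∈ Λ, ∀ ε : ℝ, 0 < ε → ∀ᶠ y : ℝ in atTop, P (y ^ l) ≤ (1 + ε) * P y

/-- The order of `F` at `1/2` is even. -/
def EvenOrder (F : ℂ → ℂ) : Prop := ∃ m : ℕ, analyticOrderAt F (1 / 2) = m ∧ Even m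

/-! ### translation -/

variable {S : Finset (HeightOneSpectrum (𝓞 K))} {a : HeightOneSpectrum (𝓞 K) → Fin p → ℂ}
  {b : HeightOneSpectrum (𝓞 K) → Fin q → ℂ} {F : ℂ → ℂ}

theorem half_c : (1 / 2 : ℝ) = (((0 : ℕ) : ℝ) + 1) / 2 := by norm_num

theorem productStar_eq : productStar S a b = Pool.Agent.Q18.P.productStar (1 / 2) S (Pool.Agent.Q18.P.tensor a b) := by
  funext y
  unfold productStar Pool.Agent.Q18.P.productStar
  congr 2
  refine finsum_congr fun x => finsum_congr fun _ => ?_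
  rw [Pool.Agent.Q18.P.sum_tensor]
  rfl

/-- **The Ichino-Ikeda formula and ratios of Euler products.** -/
theorem result (K : Type) [Field K] [NumberField K] (p q : ℕ) (S : Finset (HeightOneSpectrum (𝓞 K)))
    (a : HeightOneSpectrum (𝓞 K) → Fin p → ℂ) (b : HeightOneSpectrum (𝓞 K) → Fin q → ℂ) (F : ℂ → ℂ)
    (ha : SelfDual S a) (hb : SelfDual S b) (hF : IsL S a b F) (ι : Type) (Per c : ι → ℝ) :
    -- (1) under convergence of the ratios
    (Conv (productStar S a b) → (∀ s : ℂ, 1 / 2 < s.re → F s ≠ 0) ∧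
      (∃ A : ℝ, 0 ≤ A ∧ F (1 / 2) = A ∧ Tendsto (fun y : ℝ => 1 / productStar S a b y) atTop (𝓝 A)) ∧
      ∀ j, (Per j : ℂ) = c j * F (1 / 2) ↔ Tendsto (fun y : ℝ => c j / productStar S a b y) atTop (𝓝 (Per j))) ∧
    -- (2) one pair of vectors
    (∀ j, 0 < c j → Per j ≠ 0 → (Tendsto (fun y : ℝ => c j / productStar S a b y) atTop (𝓝 (Per j)) ↔
      (Per j : ℂ) = c j * F (1 / 2) ∧ Slow (productStar S a b))) ∧
    -- (3) one exponent
    (∀ l Q : ℝ, 1 < l → (∀ᶠ y : ℝ in atTop, productStar S a b (y ^ l) ≤ Q * productStar S a b y) →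
      (∀ s : ℂ, 1 / 2 < s.re → F s ≠ 0) ∧
      ((Q < l ∨ EvenOrder F ∧ Q < l ^ 2) → ∀ j, 0 < c j → (Per j : ℂ) = c j * F (1 / 2) → Per j ≠ 0) ∧
      ∀ r : ℝ, 1 < r → (∀ᶠ y : ℝ in atTop, r * productStar S a b y ≤ productStar S a b (y ^ l)) →
        ∀ j, (Per j : ℂ) = c j * F (1 / 2) → Per j = 0) := by
  have hp : Pool.Agent.Q18.P.Pure 0 S (Pool.Agent.Q18.P.tensor a b) := by
    refine Pool.Agent.Q18.P.tensor_pure ⟨fun v hv j => ?_, fun v hv => (ha v hv).2⟩
      ⟨fun v hv j => ?_, fun v hv => (hb v hv).2⟩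
    · rw [(ha v hv).1 j]
      simp
    · rw [(hb v hv).1 j]
      simp
  have hH : Pool.Agent.Q190.RV.Holo (1 / 2) S (Pool.Agent.Q18.P.tensor a b) F := by
    refine ⟨hF.holo, fun s hs => (hF.euler s (by linarith)).congr_fun fun v => ?_⟩
    rw [Pool.Agent.Q18.P.prod_tensor]
    rfl
  have hbd := Pool.Agent.Q190.RV.bdd_of hp
  obtain ⟨m, hm⟩ := hH.order_finite' half_c hbd
  have hcast : (((1 / 2 : ℝ)) : ℂ) = 1 / 2 := by push_cast; rfl
  have hm' : analyticOrderAt F (1 / 2) = m := by rw [← hcast]; exact hm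
  have han : AnalyticAt ℂ F (1 / 2) := by
    have := hH.analytic.1
    rwa [hcast] at this
  have hv : F (1 / 2) ≠ 0 ↔ m = 0 := by
    have h1 := han.analyticOrderAt_eq_zero
    rw [hm'] at h1
    rw [← h1]
    exact Nat.cast_eq_zero
  have low : ∀ (l Q : ℝ) (k : ℕ), 1 < l → l ^ m ≤ Q → Q < l ^ k → m < k := fun l Q k hl h1 h2 =>
    (pow_lt_pow_iff_right₀ hl).1 (lt_of_le_of_lt h1 h2)
  rw [productStar_eq]
  refine ⟨fun hcv => ?_, fun j hc0 hP => ?_, fun l Q hl hQ => ?_⟩
  · obtain ⟨hz, A, hA, h1, h2⟩ := Pool.Agent.Q190.RV.conv_value half_c hp hH hcv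
    rw [hcast] at h1
    refine ⟨hz, ⟨A, hA, h1, h2⟩, fun j => ?_⟩
    have h3 : Tendsto (fun y : ℝ => c j / Pool.Agent.Q18.P.productStar (1 / 2) S (Pool.Agent.Q18.P.tensor a b) y)
        atTop (𝓝 (c j * A)) := by
      refine (h2.const_mul (c j)).congr fun y => ?_
      rw [mul_one_div]
    rw [h1]
    constructor
    · intro h4
      have h5 : Per j = c j * A := by exact_mod_cast h4
      rw [h5]
      exact h3
    · intro h4
      have h5 := tendsto_nhds_unique h4 h3
      rw [h5]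
      push_cast
      rfl
  · have h1 := Pool.Agent.Q190.RV.formula_iff half_c hp hH hc0 hP
    rw [hcast] at h1
    exact h1
  · obtain ⟨hz, h1⟩ := Pool.Agent.Q190.RV.s_upper half_c hbd hH hm hl hQ
    refine ⟨hz, fun h2 j hc0 hf h0 => ?_, fun r hr h2 j hf => ?_⟩
    · have hm0 : m = 0 := by
        rcases h2 with h3 | ⟨⟨k, hk, hk2⟩, h3⟩
        · have := low l Q 1 hl h1 (by rwa [pow_one])
          omega
        · rw [hm'] at hk
          have hk3 : m = k := Nat.cast_inj.1 hk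
          have := low l Q 2 hl h1 h3
          obtain ⟨t, ht⟩ := hk2
          omega
      have h3 := hv.2 hm0
      rw [h0] at hf
      have h4 : (c j : ℂ) * F (1 / 2) = 0 := by rw [← hf]; simp
      rcases mul_eq_zero.1 h4 with h5 | h5
      · exact hc0.ne' (by exact_mod_cast h5)
      · exact h3 h5
    · have h3 := Pool.Agent.Q190.RV.s_lower half_c hbd hH hm hz hl (by linarith) h2
      have h4 : F (1 / 2) = 0 := by
        by_contra hne
        have h5 := hv.1 hne
        rw [h5, pow_zero] at h3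
        linarith
      rw [h4, mul_zero] at hf
      exact_mod_cast hf

end Pool.Agent.Results.MP_f4c338_nt.PeriodRatios
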