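import Mathlib
import Pool.Agent.Q18.P.Cent

/-!
# The Ichino-Ikeda formula and Euler products on one sequence of windows

`τ`, `σ` are tempered cuspidal automorphic representations of `SO(V_n)`, `SO(V_{n+1})` over a number field `K` as in the
problem, `S` a finite set of finite places containing the bad ones, `a_{v,i}`, `b_{v,j}`, `v ∉ S`, the eigenvalues of the
Satake parameters in the standard representations (absolute value `1`, stable under `z ↦ z⁻¹`), and
`F(s) = ∏_{v ∉ S} ∏_{i,j} (1 - a_{v,i} b_{v,j} q_v^{-s})⁻¹` the partial `L`-function, assumed to be holomorphic and of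
polynomial growth in a half plane `Re s > 1/2 - η` (known, by Arthur's transfer and Rankin-Selberg theory, unless it has
a pole on `Re s = 1`). Let `ι` index the pairs `(φ, f)` of factorisable vectors, let `Per_ι = 𝒫(φ, f) ≥ 0` be the
global periods, and `c_ι ≥ 0` the number for which the formula says `Per_ι = c_ι F(1/2)`; it is
`2^{-β} Δ ∏_v 𝒫_v(φ_v, f_v)` divided by `L(1, τ, Ad) L(1, σ, Ad)` and multiplied by the Euler factors of
`L(1/2, τ × σ)` at `S` and infinity, and it is positive for some pair. Let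

`P(y) = ∏_{v ∉ S, q_v ≤ y} |∏_{i,j} (1 - a_{v,i} b_{v,j} q_v^{-1/2})|`,
`P*(y) = exp (- ∑_{v ∉ S, q_v^k ≤ y} (∑_i a_{v,i}^k)(∑_j b_{v,j}^k) / (k q_v^{k/2}))`.

Fix `0 < δ < 1`; the windows are `[Y^(1-δ), Y]`. The Riemann hypothesis is `F(s) ≠ 0` for `Re s > 1/2`.

1. The Ichino-Ikeda formula for all pairs of vectors of `(τ, σ)` and the Riemann hypothesis hold together if and only if
   one of the following holds:
   (I) there is an `A > 0` such that `Per_ι = c_ι A` for all `ι`, and for each `ε > 0`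
       `∫ |log (A P*(y))| dy/y ≤ ε log Y` over the windows of arbitrarily large `Y` (one sequence, as sparse as we like);
   (II) `Per_ι = 0` for all `ι`, and for some integer `m ≥ 1` and some `B`, `∫ |log P(y) - m log log y| dy/y ≤ B log Y`
       over the windows of arbitrarily large `Y`.
2. The same with `for all large Y` in (I) and (II).
3. (One pair of vectors.) If the Riemann hypothesis holds, `c_ι > 0` and `Per_ι > 0`, then the formula for the pair `ι`
   holds if and only if `∫ |log (A P*(y))| dy/y ≤ ε log Y` for `A = Per_ι / c_ι`, for arbitrarily large `Y`, each `ε > 0`.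
4. (Without any hypothesis on zeros.) If `c_ι > 0` and the formula holds for `ι` with `Per_ι > 0`, then for every
   `A > Per_ι / c_ι` there is a `β > 0` with `∫ max (log (A P*(y)), 0) dy/y > β log Y` over ALL windows with large `Y`.
-/

set_option autoImplicit false

namespace Pool.Agent.Results.MP_f4c338_nt.PeriodWindows

open Filter Topology Set Complex NumberField IsDedekindDomain MeasureTheory ComplexConjugate
open Pool.Agent.Q18.P (norm Holo NoZeros Order MeanBound error upTo SelfDual tensor)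

variable {K : Type} [Field K] [NumberField K] {p q : ℕ}

/-- `∏_{i,j} (1 - a_{v,i} b_{v,j} q_v^{-s})` -/
noncomputable def factor (a : HeightOneSpectrum (𝓞 K) → Fin p → ℂ) (b : HeightOneSpectrum (𝓞 K) → Fin q → ℂ)
    (v : HeightOneSpectrum (𝓞 K)) (s : ℂ) : ℂ :=
  ∏ i, ∏ j, (1 - a v i * b v j * (norm v : ℂ) ^ (-s))

/-- `F` is holomorphic, of polynomial growth in a half plane `Re s > 1/2 - η`, and for `Re s > 1` it is the Euler
product. -/
structure IsL (S : Finset (HeightOneSpectrum (𝓞 K))) (a : HeightOneSpectrum (𝓞 K) → Fin p → ℂ)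
    (b : HeightOneSpectrum (𝓞 K) → Fin q → ℂ) (F : ℂ → ℂ) : Prop where
  holo : Holo (1 / 2) F
  euler : ∀ s : ℂ, 1 < s.re → HasProd (fun v : {v : HeightOneSpectrum (𝓞 K) // v ∉ S} => (factor a b v.1 s)⁻¹) (F s)

/-- `P(y) = ∏_{v ∉ S, q_v ≤ y} |∏_{i,j} (1 - a_{v,i} b_{v,j} q_v^{-1/2})|` -/
noncomputable def product (S : Finset (HeightOneSpectrum (𝓞 K))) (a : HeightOneSpectrum (𝓞 K) → Fin p → ℂ)
    (b : HeightOneSpectrum (𝓞 K) → Fin q → ℂ) (y : ℝ) : ℝ :=
  ∏ᶠ v ∈ upTo S y, ‖factor a b v (1 / 2)‖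

/-- `P*(y) = exp (- ∑_{v ∉ S, q_v^k ≤ y} (∑_i a_{v,i}^k)(∑_j b_{v,j}^k) / (k q_v^{k/2}))`, `k = r.2 + 1` -/
noncomputable def productStar (S : Finset (HeightOneSpectrum (𝓞 K))) (a : HeightOneSpectrum (𝓞 K) → Fin p → ℂ)
    (b : HeightOneSpectrum (𝓞 K) → Fin q → ℂ) (y : ℝ) : ℝ :=
  Real.exp (-∑ᶠ (r : {v : HeightOneSpectrum (𝓞 K) // v ∉ S} × ℕ) (_ : (norm r.1.1 : ℝ) ^ (r.2 + 1) ≤ y),
    ((∑ i, a r.1.1 i ^ (r.2 + 1)) * ∑ j, b r.1.1 j ^ (r.2 + 1)).re /
      (((r.2 : ℝ) + 1) * ((norm r.1.1 : ℝ) ^ (1 / 2 : ℝ)) ^ (r.2 + 1)))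

/-- the central value of `F` -/
noncomputable def central (F : ℂ → ℂ) : ℂ := F ((1 / 2 : ℝ) : ℂ)

/-- `∫ |log (A P(y))| dy/y ≤ ε log Y` over the window `[Y^(1-δ), Y]` -/
def Close (δ : ℝ) (P : ℝ → ℝ) (A ε Y : ℝ) : Prop := MeanBound δ (fun y => |Real.log (A * P y)|) ε Y

/-! ### translation -/

variable {S : Finset (HeightOneSpectrum (𝓞 K))} {a : HeightOneSpectrum (𝓞 K) → Fin p → ℂ}
  {b : HeightOneSpectrum (𝓞 K) → Fin q → ℂ} {F : ℂ → ℂ}

theorem factor_eq (v : HeightOneSpectrum (𝓞 K)) (s : ℂ) :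
    factor a b v s = ∏ j, (1 - tensor a b v j * (norm v : ℂ) ^ (-s)) :=
  (Pool.Agent.Q18.P.prod_tensor a b v _).symm

theorem product_eq : product S a b = Pool.Agent.Q18.P.product (1 / 2) S (tensor a b) := by
  funext y
  unfold product Pool.Agent.Q18.P.product
  refine finprod_congr fun v => finprod_congr fun _ => ?_
  rw [factor_eq]
  push_cast
  rfl

theorem star_eq : productStar S a b = Pool.Agent.Q18.P.productStar (1 / 2) S (tensor a b) := by
  funext y
  unfold productStar Pool.Agent.Q18.P.productStar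
  congr 2
  refine finsum_congr fun p => finsum_congr fun _ => ?_
  rw [Pool.Agent.Q18.P.sum_tensor]

/-- **The Ichino-Ikeda formula, the Riemann hypothesis, and Euler products on one sequence of windows.** -/
theorem result (K : Type) [Field K] [NumberField K] (p q : ℕ) (S : Finset (HeightOneSpectrum (𝓞 K)))
    (a : HeightOneSpectrum (𝓞 K) → Fin p → ℂ) (b : HeightOneSpectrum (𝓞 K) → Fin q → ℂ) (ha : SelfDual S a)
    (hb : SelfDual S b) (F : ℂ → ℂ) (hF : IsL S a b F) (δ : ℝ) (h0 : 0 < δ) (h1 : δ < 1)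
    (ι : Type) (Per c : ι → ℝ) (hpos : ∃ i, 0 < c i) :
    -- (1), (2) the formula for all vectors
    List.TFAE [
      NoZeros (1 / 2) F ∧ ∀ i, (Per i : ℂ) = c i * central F,
      (∃ A : ℝ, 0 < A ∧ (∀ i, Per i = c i * A) ∧
          ∀ ε : ℝ, 0 < ε → ∃ᶠ Y : ℝ in atTop, Close δ (productStar S a b) A ε Y) ∨
        ((∀ i, Per i = 0) ∧
          ∃ (m : ℤ) (B : ℝ), 1 ≤ m ∧ ∃ᶠ Y : ℝ in atTop, MeanBound δ (error (product S a b) m) B Y),
      (∃ A : ℝ, 0 < A ∧ (∀ i, Per i = c i * A) ∧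
          ∀ ε : ℝ, 0 < ε → ∀ᶠ Y : ℝ in atTop, Close δ (productStar S a b) A ε Y) ∨
        ((∀ i, Per i = 0) ∧
          ∃ (m : ℤ) (B : ℝ), 1 ≤ m ∧ ∀ᶠ Y : ℝ in atTop, MeanBound δ (error (product S a b) m) B Y)] ∧
    -- (3) one pair of vectors
    (NoZeros (1 / 2) F → ∀ i, 0 < c i → 0 < Per i → ((Per i : ℂ) = c i * central F ↔
      ∀ ε : ℝ, 0 < ε → ∃ᶠ Y : ℝ in atTop, Close δ (productStar S a b) (Per i / c i) ε Y)) ∧
    -- (4) no hypothesis on zeros
    (∀ i, 0 < c i → 0 < Per i → (Per i : ℂ) = c i * central F → ∀ A : ℝ, Per i / c i < A → ∃ β : ℝ, 0 < β ∧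
      ∀ᶠ Y : ℝ in atTop, ¬ MeanBound δ (fun y => max (Real.log (A * productStar S a b y)) 0) β Y) := by
  have hc : (1 / 2 : ℝ) = (((0 : ℕ) : ℝ) + 1) / 2 := by norm_num
  have hE : Pool.Agent.Q18.P.Euler (1 / 2) S (tensor a b) F := by
    intro s hs
    refine (hF.euler s (by linarith)).congr_fun fun v => ?_
    rw [factor_eq]
  have hP : Pool.Agent.Q18.P.Pure 0 S (tensor a b) := Pool.Agent.Q18.P.tensor_pure ha.pure hb.pure
  have L := Pool.Agent.Q18.P.laws hc hP.le hF.holo hE h0 h1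
  rw [product_eq, star_eq]
  have hval1 : ∀ A : ℝ, 0 < A → ((NoZeros (1 / 2) F ∧ central F = A) ↔ ∀ ε : ℝ, 0 < ε → ∃ᶠ Y : ℝ in atTop,
      Close δ (Pool.Agent.Q18.P.productStar (1 / 2) S (tensor a b)) A ε Y) := fun A hA =>
    (Pool.Agent.Q18.P.value_real hc hP hF.holo hE h0 h1 hA).out 0 1
  have hval2 : ∀ A : ℝ, 0 < A → ((NoZeros (1 / 2) F ∧ central F = A) ↔ ∀ ε : ℝ, 0 < ε → ∀ᶠ Y : ℝ in atTop,
      Close δ (Pool.Agent.Q18.P.productStar (1 / 2) S (tensor a b)) A ε Y) := fun A hA =>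
    (Pool.Agent.Q18.P.value_real hc hP hF.holo hE h0 h1 hA).out 0 2
  have hvan : (NoZeros (1 / 2) F ∧ central F = 0) ↔ ∃ (m : ℤ) (B : ℝ), 1 ≤ m ∧ ∃ᶠ Y : ℝ in atTop,
      MeanBound δ (error (Pool.Agent.Q18.P.product (1 / 2) S (tensor a b)) m) B Y := L.vanish hF.holo
  have hvan2 : (NoZeros (1 / 2) F ∧ central F = 0) → ∃ (m : ℤ) (B : ℝ), 1 ≤ m ∧ ∀ᶠ Y : ℝ in atTop,
      MeanBound δ (error (Pool.Agent.Q18.P.product (1 / 2) S (tensor a b)) m) B Y := by
    intro h
    obtain ⟨m, B, hm, hB⟩ := hvan.1 h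
    have t : (∃ B : ℝ, ∃ᶠ Y : ℝ in atTop, MeanBound δ (error (Pool.Agent.Q18.P.product (1 / 2) S (tensor a b)) m) B Y) ↔
      ∃ B : ℝ, ∀ᶠ Y : ℝ in atTop, MeanBound δ (error (Pool.Agent.Q18.P.product (1 / 2) S (tensor a b)) m) B Y :=
      (L.order m).out 1 2
    obtain ⟨B', hB'⟩ := t.1 ⟨B, hB⟩
    exact ⟨m, B', hm, hB'⟩
  obtain ⟨i₀, hi₀⟩ := hpos
  have split : (NoZeros (1 / 2) F ∧ ∀ i, (Per i : ℂ) = c i * central F) →
      (∃ A : ℝ, 0 < A ∧ (∀ i, Per i = c i * A) ∧ NoZeros (1 / 2) F ∧ central F = A) ∨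
      ((∀ i, Per i = 0) ∧ NoZeros (1 / 2) F ∧ central F = 0) := by
    rintro ⟨hz, h⟩
    by_cases hne : central F = 0
    · right
      refine ⟨fun i => ?_, hz, hne⟩
      have := h i
      rw [hne, mul_zero] at this
      exact_mod_cast this
    · left
      obtain ⟨A, hA, hFA⟩ := Pool.Agent.Q18.P.value_pos hc hP hF.holo hE hz hne
      have hFA' : central F = A := hFA
      refine ⟨A, hA, fun i => ?_, hz, hFA'⟩
      have := h i
      rw [hFA'] at this
      exact_mod_cast this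
  refine ⟨?_, fun hz i hci hpi => ?_, fun i hci hpi h A hA => ?_⟩
  · tfae_have 1 → 3 := by
      intro h
      rcases split h with ⟨A, hA, hp, hv⟩ | ⟨hp, hv⟩
      · exact Or.inl ⟨A, hA, hp, (hval2 A hA).1 hv⟩
      · exact Or.inr ⟨hp, hvan2 hv⟩
    tfae_have 3 → 2 := by
      rintro (⟨A, hA, hp, h⟩ | ⟨hp, m, B, hm, hB⟩)
      · exact Or.inl ⟨A, hA, hp, fun ε hε => (h ε hε).frequently⟩
      · exact Or.inr ⟨hp, m, B, hm, hB.frequently⟩
    tfae_have 2 → 1 := by
      rintro (⟨A, hA, hp, h⟩ | ⟨hp, hm⟩)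
      · obtain ⟨hz, hv⟩ := (hval1 A hA).2 h
        refine ⟨hz, fun i => ?_⟩
        rw [hv, hp i]
        push_cast
        rfl
      · obtain ⟨hz, hv⟩ := hvan.2 hm
        refine ⟨hz, fun i => ?_⟩
        rw [hv, hp i]
        simp
    tfae_finish
  · have hA : 0 < Per i / c i := div_pos hpi hci
    rw [← hval1 _ hA]
    have hcc : (c i : ℂ) ≠ 0 := by exact_mod_cast hci.ne'
    constructor
    · intro h
      refine ⟨hz, ?_⟩
      push_cast
      rw [h, mul_div_cancel_left₀ _ hcc]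
    · rintro ⟨-, h⟩
      rw [h]
      push_cast
      rw [mul_div_cancel₀ _ hcc]
  · have hcc : (c i : ℂ) ≠ 0 := by exact_mod_cast hci.ne'
    have hv : central F = ((Per i / c i : ℝ) : ℂ) := by
      push_cast
      rw [h, mul_div_cancel_left₀ _ hcc]
    have hne : central F ≠ 0 := by
      rw [hv]
      exact_mod_cast (div_pos hpi hci).ne'
    have hnorm : ‖central F‖ = Per i / c i := by
      rw [hv, Complex.norm_real, Real.norm_of_nonneg (div_pos hpi hci).le]
    have t := L.omega 0 (central F) ((Pool.Agent.Q18.P.lead_zero hF.holo).2 ⟨hne, rfl⟩) A (by rw [hnorm]; exact hA)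
    simp only [Pool.Agent.Q18.P.ratio_zero] at t
    exact t

end Pool.Agent.Results.MP_f4c338_nt.PeriodWindows
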